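import Pool.Agent.GEN.StmtsZ
import Pool.Agent.Helper73_Simp2.Zalg

set_option autoImplicit false

namespace Pool.Agent.GEN.H92

open PowerSeries Finset Pool.Agent.Helper6_Mono Pool.Agent.Helper30_Simp
  Pool.Agent.Helper30_Simp2 Pool.Agent.GEN

/-- the ideal of the `p` with `q p x` in `a` -/
def idl {R : Type} [CommRing R] (a : Ideal R) (q x : R) : Ideal R where
  carrier := {p | q * p * x ∈ a}
  add_mem' := by
    intro p p' h h'
    show q * (p + p') * x ∈ a
    have h1 : q * (p + p') * x = q * p * x + q * p' * x := by ring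
    rw [h1]
    exact a.add_mem h h'
  zero_mem' := by
    show q * 0 * x ∈ a
    rw [mul_zero, zero_mul]
    exact a.zero_mem
  smul_mem' := by
    intro c p h
    show q * (c • p) * x ∈ a
    have h1 : q * (c • p) * x = c * (q * p * x) := by
      rw [smul_eq_mul]
      ring
    rw [h1]
    exact a.mul_mem_left c h

theorem mem_idl {R : Type} [CommRing R] {a : Ideal R} {q x p : R} :
    p ∈ idl a q x ↔ q * p * x ∈ a := Iff.rfl

theorem le_idl {R : Type} [CommRing R] {a : Ideal R} (q x : R) {p : R} (h : p ∈ a) :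
    p ∈ idl a q x := by
  rw [mem_idl]
  exact a.mul_mem_right x (a.mul_mem_left q h)

theorem prod_mem {R ι : Type} [CommRing R] (b : Ideal R) (s : Finset ι) (f : ι → R) {i : ι}
    (hi : i ∈ s) (h : f i ∈ b) : ∏ j ∈ s, f j ∈ b := by
  classical
  rw [← Finset.mul_prod_erase s f hi]
  exact b.mul_mem_right _ h

open scoped Classical in
/-- the part of the cell which belongs to the monomials -/
noncomputable def cM {σ : Type} [Fintype σ] (M : Finset (σ →₀ ℕ)) (A : Type) [CommRing A]
    (I : Finset (σ →₀ ℕ)) : MvPolynomial (Wa M) A :=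
  ∏ α : M, if (α : σ →₀ ℕ) ∈ I then 1 - MvPolynomial.X (Sum.inr α)
    else MvPolynomial.X (Sum.inr α)

open scoped Classical in
/-- the part of the cell which belongs to the coordinates -/
noncomputable def cJ {σ : Type} [Fintype σ] (M : Finset (σ →₀ ℕ)) (A : Type) [CommRing A]
    (J : Finset σ) : MvPolynomial (Wa M) A :=
  ∏ i : σ, if i ∈ J then 1 - MvPolynomial.X (Sum.inl i) else MvPolynomial.X (Sum.inl i)

theorem cellP_eq {σ : Type} [Fintype σ] (M : Finset (σ →₀ ℕ)) (A : Type) [CommRing A]
    (I : Finset (σ →₀ ℕ)) (J : Finset σ) : cellP M A I J = cM M A I * cJ M A J := rfl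

open scoped Classical in
theorem cM_map {σ : Type} [Fintype σ] (M : Finset (σ →₀ ℕ)) (A : Type) [CommRing A]
    [inst : DecidableEq M] (I : Finset M) : cM M A (I.map (Function.Embedding.subtype _)) =
      (∏ α ∈ I, (1 - (MvPolynomial.X (Sum.inr α) : MvPolynomial (Wa M) A))) *
        ∏ α ∈ univ \ I, MvPolynomial.X (Sum.inr α) := by
  unfold cM
  rw [Finset.prod_ite]
  have e1 : (univ : Finset M).filter
      (fun α : M => (α : σ →₀ ℕ) ∈ I.map (Function.Embedding.subtype _)) = I := by
    ext α
    rw [Finset.mem_filter, Finset.mem_map]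
    constructor
    · rintro ⟨_, β, hβ, he⟩
      have : β = α := Subtype.ext he
      rw [← this]
      exact hβ
    · intro h
      exact ⟨Finset.mem_univ _, α, h, rfl⟩
  rw [Finset.filter_not, e1]

open scoped Classical in
theorem sum_sub {σ : Type} [Fintype σ] (M : Finset (σ →₀ ℕ)) (B : Type) [AddCommMonoid B]
    (g : Finset (σ →₀ ℕ) → B) : ∑ I ∈ M.powerset, g I =
      ∑ I : Finset M, g (I.map (Function.Embedding.subtype _)) := by
  symm
  refine Finset.sum_bij' (fun I _ => I.map (Function.Embedding.subtype _))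
    (fun I _ => (univ : Finset M).filter (fun α : M => (α : σ →₀ ℕ) ∈ I)) ?_ ?_ ?_ ?_ ?_
  · intro I _
    rw [Finset.mem_powerset]
    intro α hα
    rw [Finset.mem_map] at hα
    obtain ⟨β, _, rfl⟩ := hα
    exact β.2
  · intro I _
    exact Finset.mem_univ _
  · intro I _
    ext α
    rw [Finset.mem_filter, Finset.mem_map]
    constructor
    · rintro ⟨_, β, hβ, he⟩
      have : β = α := Subtype.ext he
      rw [← this]
      exact hβ
    · intro h
      exact ⟨Finset.mem_univ _, α, h, rfl⟩
  · intro I hI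
    rw [Finset.mem_powerset] at hI
    ext α
    rw [Finset.mem_map]
    constructor
    · rintro ⟨β, hβ, rfl⟩
      rw [Finset.mem_filter] at hβ
      exact hβ.2
    · intro h
      exact ⟨⟨α, hI h⟩, by rw [Finset.mem_filter]; exact ⟨Finset.mem_univ _, h⟩, rfl⟩
  · intro I _
    rfl

open scoped Classical in
/-- the block of a monomial -/
noncomputable def bk {σ : Type} (F : Finset (σ →₀ ℕ)) (K : Finset σ) (α : σ →₀ ℕ) : Option σ :=
  if h : α ∈ F ∧ ∃ j ∈ K, α j = 1 then some h.2.choose else none

theorem bk_iff {σ : Type} {F : Finset (σ →₀ ℕ)} {K : Finset σ}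
    (hst : ∀ α ∈ F, ∑ j ∈ K, α j ≤ 1) {α : σ →₀ ℕ} {j : σ} :
    bk F K α = some j ↔ α ∈ F ∧ j ∈ K ∧ α j = 1 := by
  classical
  have huniq : α ∈ F → ∀ i ∈ K, ∀ j ∈ K, α i = 1 → α j = 1 → i = j := by
    intro hα i hi j hj h1 h2
    by_contra hne
    have hsub : ({i, j} : Finset σ) ⊆ K := by
      intro z hz
      rw [Finset.mem_insert, Finset.mem_singleton] at hz
      rcases hz with h | h
      · rw [h]
        exact hi
      · rw [h]
        exact hj
    have h3 := Finset.sum_le_sum_of_subset (f := fun j => α j) hsub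
    rw [Finset.sum_insert (by rwa [Finset.mem_singleton]), Finset.sum_singleton, h1, h2] at h3
    have h4 := hst α hα
    omega
  unfold bk
  split_ifs with h
  · constructor
    · intro he
      have he' : h.2.choose = j := Option.some.inj he
      rw [← he']
      exact ⟨h.1, h.2.choose_spec.1, h.2.choose_spec.2⟩
    · rintro ⟨hα, hj, h1⟩
      rw [huniq hα _ h.2.choose_spec.1 j hj h.2.choose_spec.2 h1]
  · constructor
    · intro he
      exact absurd he (by simp)
    · rintro ⟨hα, hj, h1⟩
      exact absurd ⟨hα, j, hj, h1⟩ h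

theorem mem_filt {α : Type} {p : α → Prop} (inst : DecidablePred p) {s : Finset α} {a : α} :
    a ∈ @Finset.filter α p inst s ↔ a ∈ s ∧ p a := @Finset.mem_filter α p inst s a

open scoped Classical in
theorem mem_keep {σ : Type} {I : Finset (σ →₀ ℕ)} {K K' : Finset σ} {α : σ →₀ ℕ} :
    α ∈ keep I K K' ↔ α ∈ I ∧ ∀ j ∈ K, j ∉ K' → α j = 0 := by
  unfold keep
  exact mem_filt _

theorem dot_single {σ : Type} [Fintype σ] [DecidableEq σ] (j : σ) (α : σ →₀ ℕ) :
    dot (fun i => if i = j then 1 else 0 : σ → ℕ) α = α j := by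
  unfold dot
  rw [Finset.sum_eq_single j]
  · simp
  · intro i _ hi
    simp [hi]
  · intro h
    exact absurd (Finset.mem_univ j) h

theorem vk_mono {σ : Type} {I F : Finset (σ →₀ ℕ)} (h : I ⊆ F) (K : Finset σ) :
    VK I K ≤ VK F K := by
  unfold VK
  apply Submodule.span_mono
  rintro v ⟨j, hj, α, hα, β, hβ, h1, h2, h3⟩
  exact ⟨j, hj, α, h hα, β, h hβ, h1, h2, h3⟩

theorem sdiff_inst {ι : Type} [Fintype ι] (i1 i2 : DecidableEq ι) (I : Finset ι) :
    @SDiff.sdiff (Finset ι) (@Finset.instSDiff ι i1) univ I =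
      @SDiff.sdiff (Finset ι) (@Finset.instSDiff ι i2) univ I := by
  rw [Subsingleton.elim i1 i2]

open scoped Classical in
theorem lck (hprd : PrdStmt) : LckStmt := by
  intro σ _ M A _ X τ a hX hEv R w K q hR hK hslk hKS hq z hz
  obtain ⟨hst, hrk⟩ := hKS
  obtain ⟨hKne, hsum, hocc⟩ := hst
  set F := fce M w.1 with hF
  set b := idl a q (Xs M A R) with hb
  have hFM : F ⊆ M := by
    rw [hF]
    exact Finset.filter_subset _ _
  -- (1)
  have hwall : ∀ ρ, slk M w.1 w.2 ρ ≠ 0 →
      (1 - MvPolynomial.X ρ : MvPolynomial (Wa M) A) ∈ b := by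
    intro ρ hρ
    have hρR : ρ ∉ R := fun h => hρ (hR.2 ρ h)
    have h1 := hq (insert ρ R) (Finset.subset_insert ρ R)
      (fun h => hρ (h.2 ρ (Finset.mem_insert_self ρ R)))
    rw [H73.Xs_insert hρR, ← mul_assoc] at h1
    exact h1
  have hle : ∀ α : M, (α : σ →₀ ℕ) ∈ F → ∀ j ∈ K, (α : σ →₀ ℕ) j = 0 ∨ (α : σ →₀ ℕ) j = 1 := by
    intro α hα j hj
    have h1 := hsum _ hα
    have h2 : (α : σ →₀ ℕ) j ≤ ∑ j ∈ K, (α : σ →₀ ℕ) j :=
      Finset.single_le_sum (f := fun j => (α : σ →₀ ℕ) j) (fun _ _ => Nat.zero_le _) hj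
    omega
  -- (2)
  have hblk : ∀ j ∈ K, (∏ α ∈ univ.filter (fun α : M => bk F K (α : σ →₀ ℕ) = some j),
      (MvPolynomial.X (Sum.inr α) : MvPolynomial (Wa M) A)) - MvPolynomial.C X ∈ b := by
    intro j hj
    obtain ⟨hwj, hτ⟩ := hK j hj
    have h1 : Ev M A (fun i => if i = j then 1 else 0) - MvPolynomial.C X ∈ b := by
      have := le_idl q (Xs M A R) (hEv (fun i => if i = j then 1 else 0))
      rw [hτ] at this
      exact this
    rw [← Ideal.Quotient.eq] at h1 ⊢
    rw [← h1]
    have hπ : ∀ ρ, slk M w.1 w.2 ρ ≠ 0 →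
        Ideal.Quotient.mk b (MvPolynomial.X ρ : MvPolynomial (Wa M) A) = 1 := by
      intro ρ hρ
      have h2 := hwall ρ hρ
      rw [← Ideal.Quotient.eq_zero_iff_mem, map_sub, map_one, sub_eq_zero] at h2
      exact h2.symm
    unfold Ev
    rw [map_prod, map_prod, Fintype.prod_sum_type, Finset.prod_filter]
    have e1 : ∏ i : σ, Ideal.Quotient.mk b ((MvPolynomial.X (Sum.inl i) :
        MvPolynomial (Wa M) A) ^ wv M (fun i => if i = j then 1 else 0) (Sum.inl i)) = 1 := by
      apply Finset.prod_eq_one
      intro i _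
      by_cases hij : i = j
      · rw [hij, map_pow, hπ (Sum.inl j) (by
          simp only [slk]
          exact_mod_cast hwj), one_pow]
      · simp only [wv]
        rw [if_neg hij, pow_zero, map_one]
    rw [e1, one_mul]
    apply Finset.prod_congr rfl
    intro α _
    have e2 : wv M (fun i => if i = j then 1 else 0) (Sum.inr α) = (α : σ →₀ ℕ) j :=
      dot_single j (α : σ →₀ ℕ)
    rw [e2, map_pow]
    by_cases hα : (α : σ →₀ ℕ) ∈ F
    · rcases hle α hα j hj with h2 | h2
      · rw [h2, pow_zero, if_neg]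
        rw [bk_iff hsum]
        rintro ⟨_, _, h3⟩
        omega
      · rw [h2, pow_one, if_pos]
        rw [bk_iff hsum]
        exact ⟨hα, hj, h2⟩
    · rw [if_neg, hπ (Sum.inr α) (fun h0 => hα ((hslk α).2 h0)), one_pow]
      rw [bk_iff hsum]
      rintro ⟨h3, _⟩
      exact hα h3
  -- (4)
  have hinner : ∀ J : Finset σ, Disjoint K J →
      ∑ I ∈ M.powerset, MvPolynomial.C (z I J) * cM M A I ∈ b := by
    intro J hJ
    rw [sum_sub M _ (fun I => MvPolynomial.C (z I J) * cM M A I)]
    obtain ⟨zz, hzz⟩ : ∃ zz : Finset M → MvPolynomial (Wa M) A, ∀ I : Finset M,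
        zz I = if I.map (Function.Embedding.subtype _) ⊆ F then
          MvPolynomial.C (z (I.map (Function.Embedding.subtype _)) J) else 0 :=
      ⟨_, fun _ => rfl⟩
    have hmain := hprd M σ (MvPolynomial (Wa M) A) (MvPolynomial.C X) b K
      (fun α : M => bk F K (α : σ →₀ ℕ)) (fun α : M => MvPolynomial.X (Sum.inr α))
      (by
        have := hX.map (MvPolynomial.C (σ := Wa M))
        rwa [map_sub, map_one] at this)
      hblk zz
      (by
        intro I hI
        by_cases hIF : I.map (Function.Embedding.subtype _) ⊆ F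
        · have hks : KS (I.map (Function.Embedding.subtype _)) K := by
            refine ⟨⟨hKne, fun α hα => hsum α (hIF hα), fun j hj => ?_⟩, ?_⟩
            · obtain ⟨α, hα, h1⟩ := hI j hj
              rw [bk_iff hsum] at h1
              exact ⟨α, Finset.mem_map.mpr ⟨α, hα, rfl⟩, h1.2.2⟩
            · exact lt_of_le_of_lt (Submodule.finrank_mono (vk_mono hIF K)) hrk
          have h1 := hz (I.map (Function.Embedding.subtype _)) J K (hIF.trans hFM) hJ hks
          have h2 := congrArg (MvPolynomial.C (σ := Wa M)) h1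
          rw [map_sum, map_zero] at h2
          refine Eq.trans (Finset.sum_congr rfl ?_) h2
          intro K' _
          have e1 : ∀ I' : Finset M, (∀ α, α ∈ I' ↔ α ∈ I ∧ ∀ j ∈ K, j ∉ K' →
              bk F K (α : σ →₀ ℕ) ≠ some j) → I'.map (Function.Embedding.subtype _) =
              keep (I.map (Function.Embedding.subtype _)) K K' := by
            intro I' hI'
            ext α
            rw [mem_keep, Finset.mem_map]
            constructor
            · rintro ⟨β, hβ, rfl⟩
              rw [hI'] at hβ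
              refine ⟨Finset.mem_map.mpr ⟨β, hβ.1, rfl⟩, fun j hj hj' => ?_⟩
              have h3 := hβ.2 j hj hj'
              rw [Ne, bk_iff hsum] at h3
              have hβF : (β : σ →₀ ℕ) ∈ F := hIF (Finset.mem_map.mpr ⟨β, hβ.1, rfl⟩)
              rcases hle β hβF j hj with h4 | h4
              · exact h4
              · exact absurd ⟨hβF, hj, h4⟩ h3
            · rintro ⟨h3, h4⟩
              rw [Finset.mem_map] at h3
              obtain ⟨β, hβ, rfl⟩ := h3
              refine ⟨β, (hI' β).mpr ⟨hβ, fun j hj hj' h5 => ?_⟩, rfl⟩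
              rw [bk_iff hsum] at h5
              have h6 := h4 j hj hj'
              have h7 := h5.2.2
              have h8 : (Function.Embedding.subtype (fun x => x ∈ M)) β = (β : σ →₀ ℕ) := rfl
              rw [h8] at h6
              omega
          have e2 : ∀ I' : Finset M, (∀ α, α ∈ I' ↔ α ∈ I ∧ ∀ j ∈ K, j ∉ K' →
              bk F K (α : σ →₀ ℕ) ≠ some j) →
              zz I' = MvPolynomial.C (z (keep (I.map (Function.Embedding.subtype _)) K K') J) := by
            intro I' hI'
            have hsub : I'.map (Function.Embedding.subtype _) ⊆ F := by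
              refine (Finset.map_subset_map.mpr ?_).trans hIF
              intro α hα
              exact ((hI' α).mp hα).1
            rw [hzz, if_pos hsub, e1 I' hI']
          rw [e2 _ (fun α => mem_filt _)]
          rw [map_mul, map_mul, map_pow, map_pow, map_sub, map_one]
        · apply Finset.sum_eq_zero
          intro K' _
          have e2 : ∀ I' : Finset M, (∀ α, α ∈ I' ↔ α ∈ I ∧ ∀ j ∈ K, j ∉ K' →
              bk F K (α : σ →₀ ℕ) ≠ some j) → zz I' = 0 := by
            intro I' hI'
            rw [hzz, if_neg]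
            intro hsub
            apply hIF
            intro α hα
            rw [Finset.mem_map] at hα
            obtain ⟨β, hβ, rfl⟩ := hα
            by_contra hβF
            apply hβF
            apply hsub
            refine Finset.mem_map.mpr ⟨β, (hI' β).mpr ⟨hβ, fun j _ _ h5 => ?_⟩, rfl⟩
            rw [bk_iff hsum] at h5
            exact hβF h5.1
          rw [e2 _ (fun α => mem_filt _), mul_zero])
    have hmain2 : ∑ I : Finset M, zz I * cM M A (I.map (Function.Embedding.subtype _)) ∈ b := by
      refine Eq.subst (motive := fun t => t ∈ b) (Finset.sum_congr rfl fun I _ => ?_) hmain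
      rw [cM_map]
      congr 3
      exact sdiff_inst _ _ I
    have hrest : ∑ I : Finset M, (MvPolynomial.C (z (I.map (Function.Embedding.subtype _)) J) -
        zz I) * cM M A (I.map (Function.Embedding.subtype _)) ∈ b := by
      apply b.sum_mem
      intro I _
      by_cases hIF : I.map (Function.Embedding.subtype _) ⊆ F
      · rw [hzz, if_pos hIF, sub_self, zero_mul]
        exact b.zero_mem
      · apply b.mul_mem_left
        rw [Finset.not_subset] at hIF
        obtain ⟨α, hα, hαF⟩ := hIF
        rw [Finset.mem_map] at hα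
        obtain ⟨β, hβ, rfl⟩ := hα
        rw [cM_map]
        apply b.mul_mem_right
        exact prod_mem b I _ hβ (hwall (Sum.inr β) (fun h0 => hαF ((hslk β).2 h0)))
    have h5 := b.add_mem hmain2 hrest
    rw [← Finset.sum_add_distrib] at h5
    refine Eq.subst (motive := fun t => t ∈ b) (Finset.sum_congr rfl fun I _ => ?_) h5
    ring
  -- (3)
  have hPZ : PZ M z ∈ b := by
    have e1 : PZ M z = ∑ J ∈ (univ : Finset σ).powerset,
        (∑ I ∈ M.powerset, MvPolynomial.C (z I J) * cM M A I) * cJ M A J := by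
      unfold PZ
      rw [Finset.sum_comm]
      apply Finset.sum_congr rfl
      intro J _
      rw [Finset.sum_mul]
      apply Finset.sum_congr rfl
      intro I _
      rw [cellP_eq, mul_assoc]
    rw [e1]
    apply b.sum_mem
    intro J _
    by_cases hJ : Disjoint K J
    · exact b.mul_mem_right _ (hinner J hJ)
    · apply b.mul_mem_left
      rw [Finset.not_disjoint_iff] at hJ
      obtain ⟨i, hiK, hiJ⟩ := hJ
      unfold cJ
      refine prod_mem b univ _ (Finset.mem_univ i) ?_
      rw [if_pos hiJ]
      apply hwall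
      simp only [slk]
      exact_mod_cast (hK i hiK).1
  exact hPZ

end Pool.Agent.GEN.H92
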