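import Pool.Agent.GEN.StmtsPT
import Pool.Agent.Helper92_GEN.LCK

/-!
# Squad GEN, block PT, row PFT: the product formula at `T`
-/

set_option autoImplicit false

namespace Pool.Agent.GEN.PT.H92

open Finset Pool.Agent.Helper6_Mono Pool.Agent.Helper30_Simp
  Pool.Agent.Helper30_Simp2 Pool.Agent.GEN Pool.Agent.GEN.PT Pool.Agent.GEN.H92

open scoped Classical in
theorem mem_monT {σ : Type} [Fintype σ] {M : Finset (σ →₀ ℕ)} {T : Finset (Wa M)} (α : M) :
    (α : σ →₀ ℕ) ∈ monT M T ↔ Sum.inr α ∈ T := by
  unfold monT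
  rw [mem_filt]
  constructor
  · rintro ⟨_, h, h2⟩
    exact h2
  · intro h
    exact ⟨α.2, α.2, h⟩

open scoped Classical in
theorem pft (hprd : PrdStmt) : PftStmt := by
  intro σ _ M A _ X hX T K b hK hKS hwall hEv z hz
  obtain ⟨hst, hrk⟩ := hKS
  obtain ⟨hKne, hsum, hocc⟩ := hst
  obtain ⟨F, hF⟩ : ∃ F, F = monT M T := ⟨_, rfl⟩
  rw [← hF] at hsum hocc hrk
  have hFM : F ⊆ M := by
    intro α hα
    rw [hF] at hα
    unfold monT at hα
    rw [mem_filt] at hα
    exact hα.1
  have hslk : ∀ α : M, (α : σ →₀ ℕ) ∈ F ↔ Sum.inr α ∈ T := by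
    intro α
    rw [hF]
    exact mem_monT α
  have hle : ∀ α : M, (α : σ →₀ ℕ) ∈ F → ∀ j ∈ K, (α : σ →₀ ℕ) j = 0 ∨ (α : σ →₀ ℕ) j = 1 := by
    intro α hα j hj
    have h1 := hsum _ hα
    have h2 : (α : σ →₀ ℕ) j ≤ ∑ j ∈ K, (α : σ →₀ ℕ) j :=
      Finset.single_le_sum (f := fun j => (α : σ →₀ ℕ) j) (fun _ _ => Nat.zero_le _) hj
    omega
  -- (2)
  have hblk : ∀ j ∈ K, (∏ α ∈ univ.filter (fun α : M => bk F K (α : σ →₀ ℕ) = some j),
      (MvPolynomial.X (Sum.inr α) : MvPolynomial (Wa M) A)) - MvPolynomial.C X ∈ b := by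
    intro j hj
    have h1 : Ev M A (fun i => if i = j then 1 else 0) - MvPolynomial.C X ∈ b := hEv j hj
    rw [← Ideal.Quotient.eq] at h1 ⊢
    rw [← h1]
    have hπ : ∀ ρ, ρ ∉ T →
        Ideal.Quotient.mk b (MvPolynomial.X ρ : MvPolynomial (Wa M) A) = 1 := by
      intro ρ hρ
      have h2 := hwall ρ hρ
      rw [← Ideal.Quotient.eq_zero_iff_mem, map_sub, map_one, sub_eq_zero] at h2
      exact h2.symm
    unfold Ev
    rw [map_prod, map_prod, Fintype.prod_sum_type, Finset.prod_filter]
    have e1 : ∏ i : σ, Ideal.Quotient.mk b ((MvPolynomial.X (Sum.inl i) :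
        MvPolynomial (Wa M) A) ^ wv M (fun i => if i = j then 1 else 0) (Sum.inl i)) = 1 := by
      apply Finset.prod_eq_one
      intro i _
      by_cases hij : i = j
      · rw [hij, map_pow, hπ (Sum.inl j) (hK j hj), one_pow]
      · simp only [wv]
        rw [if_neg hij, pow_zero, map_one]
    rw [e1, one_mul]
    apply Finset.prod_congr rfl
    intro α _
    have e2 : wv M (fun i => if i = j then 1 else 0) (Sum.inr α) = (α : σ →₀ ℕ) j :=
      dot_single j (α : σ →₀ ℕ)
    rw [e2, map_pow]
    by_cases hα : (α : σ →₀ ℕ) ∈ F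
    · rcases hle α hα j hj with h2 | h2
      · rw [h2, pow_zero, if_neg]
        rw [bk_iff hsum]
        rintro ⟨_, _, h3⟩
        omega
      · rw [h2, pow_one, if_pos]
        rw [bk_iff hsum]
        exact ⟨hα, hj, h2⟩
    · rw [if_neg, hπ (Sum.inr α) (fun h0 => hα ((hslk α).2 h0)), one_pow]
      rw [bk_iff hsum]
      rintro ⟨h3, _⟩
      exact hα h3
  -- (4)
  have hinner : ∀ J : Finset σ, Disjoint K J →
      ∑ I ∈ M.powerset, MvPolynomial.C (z I J) * cM M A I ∈ b := by
    intro J hJ
    rw [sum_sub M _ (fun I => MvPolynomial.C (z I J) * cM M A I)]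
    obtain ⟨zz, hzz⟩ : ∃ zz : Finset M → MvPolynomial (Wa M) A, ∀ I : Finset M,
        zz I = if I.map (Function.Embedding.subtype _) ⊆ F then
          MvPolynomial.C (z (I.map (Function.Embedding.subtype _)) J) else 0 :=
      ⟨_, fun _ => rfl⟩
    have hmain := hprd M σ (MvPolynomial (Wa M) A) (MvPolynomial.C X) b K
      (fun α : M => bk F K (α : σ →₀ ℕ)) (fun α : M => MvPolynomial.X (Sum.inr α))
      (by
        have := hX.map (MvPolynomial.C (σ := Wa M))
        rwa [map_sub, map_one] at this)
      hblk zz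
      (by
        intro I hI
        by_cases hIF : I.map (Function.Embedding.subtype _) ⊆ F
        · have hks : KS (I.map (Function.Embedding.subtype _)) K := by
            refine ⟨⟨hKne, fun α hα => hsum α (hIF hα), fun j hj => ?_⟩, ?_⟩
            · obtain ⟨α, hα, h1⟩ := hI j hj
              rw [bk_iff hsum] at h1
              exact ⟨α, Finset.mem_map.mpr ⟨α, hα, rfl⟩, h1.2.2⟩
            · exact lt_of_le_of_lt (Submodule.finrank_mono (vk_mono hIF K)) hrk
          have h1 := hz (I.map (Function.Embedding.subtype _)) J K (hIF.trans hFM) hJ hks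
          have h2 := congrArg (MvPolynomial.C (σ := Wa M)) h1
          rw [map_sum, map_zero] at h2
          refine Eq.trans (Finset.sum_congr rfl ?_) h2
          intro K' _
          have e1 : ∀ I' : Finset M, (∀ α, α ∈ I' ↔ α ∈ I ∧ ∀ j ∈ K, j ∉ K' →
              bk F K (α : σ →₀ ℕ) ≠ some j) → I'.map (Function.Embedding.subtype _) =
              keep (I.map (Function.Embedding.subtype _)) K K' := by
            intro I' hI'
            ext α
            rw [mem_keep, Finset.mem_map]
            constructor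
            · rintro ⟨β, hβ, rfl⟩
              rw [hI'] at hβ
              refine ⟨Finset.mem_map.mpr ⟨β, hβ.1, rfl⟩, fun j hj hj' => ?_⟩
              have h3 := hβ.2 j hj hj'
              rw [Ne, bk_iff hsum] at h3
              have hβF : (β : σ →₀ ℕ) ∈ F := hIF (Finset.mem_map.mpr ⟨β, hβ.1, rfl⟩)
              rcases hle β hβF j hj with h4 | h4
              · exact h4
              · exact absurd ⟨hβF, hj, h4⟩ h3
            · rintro ⟨h3, h4⟩
              rw [Finset.mem_map] at h3
              obtain ⟨β, hβ, rfl⟩ := h3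
              refine ⟨β, (hI' β).mpr ⟨hβ, fun j hj hj' h5 => ?_⟩, rfl⟩
              rw [bk_iff hsum] at h5
              have h6 := h4 j hj hj'
              have h7 := h5.2.2
              have h8 : (Function.Embedding.subtype (fun x => x ∈ M)) β = (β : σ →₀ ℕ) := rfl
              rw [h8] at h6
              omega
          have e2 : ∀ I' : Finset M, (∀ α, α ∈ I' ↔ α ∈ I ∧ ∀ j ∈ K, j ∉ K' →
              bk F K (α : σ →₀ ℕ) ≠ some j) →
              zz I' = MvPolynomial.C (z (keep (I.map (Function.Embedding.subtype _)) K K') J) := by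
            intro I' hI'
            have hsub : I'.map (Function.Embedding.subtype _) ⊆ F := by
              refine (Finset.map_subset_map.mpr ?_).trans hIF
              intro α hα
              exact ((hI' α).mp hα).1
            rw [hzz, if_pos hsub, e1 I' hI']
          rw [e2 _ (fun α => mem_filt _)]
          rw [map_mul, map_mul, map_pow, map_pow, map_sub, map_one]
        · apply Finset.sum_eq_zero
          intro K' _
          have e2 : ∀ I' : Finset M, (∀ α, α ∈ I' ↔ α ∈ I ∧ ∀ j ∈ K, j ∉ K' →
              bk F K (α : σ →₀ ℕ) ≠ some j) → zz I' = 0 := by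
            intro I' hI'
            rw [hzz, if_neg]
            intro hsub
            apply hIF
            intro α hα
            rw [Finset.mem_map] at hα
            obtain ⟨β, hβ, rfl⟩ := hα
            by_contra hβF
            apply hβF
            apply hsub
            refine Finset.mem_map.mpr ⟨β, (hI' β).mpr ⟨hβ, fun j _ _ h5 => ?_⟩, rfl⟩
            rw [bk_iff hsum] at h5
            exact hβF h5.1
          rw [e2 _ (fun α => mem_filt _), mul_zero])
    have hmain2 : ∑ I : Finset M, zz I * cM M A (I.map (Function.Embedding.subtype _)) ∈ b := by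
      refine Eq.subst (motive := fun t => t ∈ b) (Finset.sum_congr rfl fun I _ => ?_) hmain
      rw [cM_map]
      congr 3
      exact sdiff_inst _ _ I
    have hrest : ∑ I : Finset M, (MvPolynomial.C (z (I.map (Function.Embedding.subtype _)) J) -
        zz I) * cM M A (I.map (Function.Embedding.subtype _)) ∈ b := by
      apply b.sum_mem
      intro I _
      by_cases hIF : I.map (Function.Embedding.subtype _) ⊆ F
      · rw [hzz, if_pos hIF, sub_self, zero_mul]
        exact b.zero_mem
      · apply b.mul_mem_left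
        rw [Finset.not_subset] at hIF
        obtain ⟨α, hα, hαF⟩ := hIF
        rw [Finset.mem_map] at hα
        obtain ⟨β, hβ, rfl⟩ := hα
        rw [cM_map]
        apply b.mul_mem_right
        exact prod_mem b I _ hβ (hwall (Sum.inr β) (fun h0 => hαF ((hslk β).2 h0)))
    have h5 := b.add_mem hmain2 hrest
    rw [← Finset.sum_add_distrib] at h5
    refine Eq.subst (motive := fun t => t ∈ b) (Finset.sum_congr rfl fun I _ => ?_) h5
    ring
  -- (3)
  have e1 : PZ M z = ∑ J ∈ (univ : Finset σ).powerset,
      (∑ I ∈ M.powerset, MvPolynomial.C (z I J) * cM M A I) * cJ M A J := by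
    unfold PZ
    rw [Finset.sum_comm]
    apply Finset.sum_congr rfl
    intro J _
    rw [Finset.sum_mul]
    apply Finset.sum_congr rfl
    intro I _
    rw [cellP_eq, mul_assoc]
  rw [e1]
  apply b.sum_mem
  intro J _
  by_cases hJ : Disjoint K J
  · exact b.mul_mem_right _ (hinner J hJ)
  · apply b.mul_mem_left
    rw [Finset.not_disjoint_iff] at hJ
    obtain ⟨i, hiK, hiJ⟩ := hJ
    unfold cJ
    refine prod_mem b univ _ (Finset.mem_univ i) ?_
    rw [if_pos hiJ]
    exact hwall _ (hK i hiK)

end Pool.Agent.GEN.PT.H92
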